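import Pool.Agent.K7.H81.SD.Ord

/-!
# Strong orderings: the closure form of the ordering lemma

`Clos A D u v` is the least relation that contains `D` and `(u, v)` and is closed under the
implications and under transitivity. If there is a strong ordering, then for every closed strict
partial order `D` of nontrivial pairs and every nontrivial pair `(u, v)` one of the relations
`Clos A D u v`, `Clos A D v u` is irreflexive, and then it is again such a relation. If `D` decides
all nontrivial pairs, then every linear extension is a strong ordering.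
-/

set_option autoImplicit false

namespace Pool.Agent.K7.H81.SD

variable {V : Type*}

/-- the closure of `D` and `(u, v)` under the implications and transitivity -/
inductive Clos (A D : V → V → Prop) (u v : V) : V → V → Prop
  | base {a b : V} : D a b → Clos A D u v a b
  | new : Clos A D u v u v
  | imp {a b y x : V} : Clos A D u v a b → G A a b y x → Clos A D u v y x
  | trans {a b c : V} : Clos A D u v a b → Clos A D u v b c → Clos A D u v a c

variable {A D : V → V → Prop} {u v : V}

/-- the closure is contained in every closed relation that contains `D` and `(u, v)` -/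
theorem Clos.sub {T : V → V → Prop} (hD : ∀ a b, D a b → T a b) (hn : T u v)
    (hg : ∀ a b y x, T a b → G A a b y x → T y x) (ht : ∀ a b c, T a b → T b c → T a c)
    {a b : V} (h : Clos A D u v a b) : T a b := by
  induction h with
  | base h => exact hD _ _ h
  | new => exact hn
  | imp _ g ih => exact hg _ _ _ _ ih g
  | trans _ _ ih1 ih2 => exact ht _ _ _ ih1 ih2

theorem Clos.cl (hA : ∀ a b, A a b → A b a) {a b c d : V} (h : Clos A D u v a b)
    (h' : Cl A a b c d) : Clos A D u v c d := by
  induction h' with
  | refl => exact h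
  | step _ g1 g2 ih => exact (ih.imp g1).imp (g2.symm hA)

/-- an irreflexive closure is again a closed strict partial order of nontrivial pairs -/
theorem Clos.cp (hA : ∀ a b, A a b → A b a) (hD : Cp A D) (hn : NT A u v)
    (hi : ∀ a, ¬ Clos A D u v a a) : Cp A (Clos A D u v) where
  nt := by
    intro a b h
    induction h with
    | base h => exact hD.nt h
    | new => exact hn
    | imp _ g _ => exact ⟨_, _, g.symm hA⟩
    | @trans a b c h1 h2 ih1 ih2 =>
      by_contra h3
      exact hi b (h2.trans (h1.cl hA (twoPath ih1 ih2 h3)))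
  trans := fun h1 h2 => h1.trans h2
  gam := fun h g => h.imp g

/-- the ordering lemma in the closure form -/
theorem clos_or (hA : ∀ a b, A a b → A b a)
    (hinv : ∀ u v, NT A u v → ¬ Cl A u v v u ∧ ∀ y x, G A u v y x → ¬ Cl A u v x y)
    (hD : Cp A D) (hn : NT A u v) :
    (∀ a, ¬ Clos A D u v a a) ∨ ∀ a, ¬ Clos A D v u a a := by
  obtain ⟨T, hT, hDT, h⟩ := ext hA hinv hD hn
  have hirr : ∀ a, ¬ T a a := fun a h' => NT.irrefl (hT.nt h')
  rcases h with h | h
  · exact Or.inl fun a h' => hirr a
      (h'.sub hDT h (fun _ _ _ _ e g => hT.gam e g) fun _ _ _ e1 e2 => hT.trans e1 e2)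
  · exact Or.inr fun a h' => hirr a
      (h'.sub hDT h (fun _ _ _ _ e g => hT.gam e g) fun _ _ _ e1 e2 => hT.trans e1 e2)

/-- the numbering `σ` of the vertices gives a matrix without `I_2` -/
def StrongNum (A : V → V → Prop) (σ : V → ℕ) : Prop :=
  ∀ i j k l, σ i < σ j → σ k < σ l → A i k → A j l → A i l ∨ A j k

theorem StrongNum.imp {σ : V → ℕ} (hσ : StrongNum A σ) (hinj : ∀ a b, σ a = σ b → a = b)
    {a b y x : V} (g : G A a b y x) (h : σ a < σ b) : σ y < σ x := by
  obtain ⟨g1, g2, g3, g4⟩ := g
  rcases lt_trichotomy (σ x) (σ y) with h1 | h1 | h1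
  · rcases hσ _ _ _ _ h h1 g1 g2 with h2 | h2
    · exact absurd h2 g3
    · exact absurd h2 g4
  · rw [hinj _ _ h1] at g1
    exact absurd g1 g3
  · exact h1

theorem StrongNum.cl (hA : ∀ a b, A a b → A b a) {σ : V → ℕ} (hσ : StrongNum A σ)
    (hinj : ∀ a b, σ a = σ b → a = b) {a b c d : V} (h : Cl A a b c d) (h' : σ a < σ b) :
    σ c < σ d := by
  induction h with
  | refl => exact h'
  | step _ g1 g2 ih => exact hσ.imp hinj (g2.symm hA) (hσ.imp hinj g1 ih)

/-- if there is a strong ordering then no class contains a pair and its reverse -/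
theorem StrongNum.inv (hA : ∀ a b, A a b → A b a) {σ : V → ℕ} (hσ : StrongNum A σ)
    (hinj : ∀ a b, σ a = σ b → a = b) :
    ∀ u v, NT A u v → ¬ Cl A u v v u ∧ ∀ y x, G A u v y x → ¬ Cl A u v x y := by
  have key : ∀ u v, NT A u v → σ u < σ v →
      ¬ Cl A u v v u ∧ ∀ y x, G A u v y x → ¬ Cl A u v x y := by
    intro u v _ h
    refine ⟨fun h1 => ?_, fun y x g h1 => ?_⟩
    · have := hσ.cl hA hinj h1 h
      omega
    · have := hσ.cl hA hinj h1 h
      have := hσ.imp hinj g h
      omega
  intro u v hn
  rcases lt_trichotomy (σ u) (σ v) with h | h | h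
  · exact key u v hn h
  · exact absurd (hinj _ _ h ▸ hn) NT.irrefl
  · obtain ⟨h1, h2⟩ := key v u hn.swap h
    exact ⟨fun h3 => h1 h3.swap, fun y x g h3 => h2 x y g.swap h3.swap⟩

/-- every linear extension of a closed strict partial order which decides all nontrivial pairs is a
strong ordering -/
theorem strongNum_of (hD : Cp A D) (hall : ∀ a b, NT A a b → D a b ∨ D b a) {σ : V → ℕ}
    (hσ : ∀ a b, D a b → σ a < σ b) : StrongNum A σ := by
  intro i j k l h1 h2 h3 h4
  by_contra hno
  push Not at hno
  have g : G A i j l k := ⟨h3, h4, hno.1, hno.2⟩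
  rcases hall i j ⟨_, _, g⟩ with h | h
  · have := hσ _ _ (hD.gam h g)
    omega
  · have := hσ _ _ h
    omega

/-- the ordering lemma in the form that is used by the algorithm: `E` and `E'` are the closures -/
theorem greedy_step (hA : ∀ a b, A a b → A b a) {σ : V → ℕ} (hσ : StrongNum A σ)
    (hinj : ∀ a b, σ a = σ b → a = b) (hD : Cp A D) (hn : NT A u v) :
    ((∀ a, ¬ Clos A D u v a a) → Cp A (Clos A D u v)) ∧
    ((∃ a, Clos A D u v a a) → Cp A (Clos A D v u)) := by
  refine ⟨fun h => Clos.cp hA hD hn h, fun ⟨a, ha⟩ => ?_⟩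
  rcases clos_or hA (hσ.inv hA hinj) hD hn with h | h
  · exact absurd ha (h a)
  · exact Clos.cp hA hD hn.swap h

/-- the empty relation -/
theorem Cp.bot : Cp A (fun _ _ => False) where
  nt := fun h => h.elim
  trans := fun h _ => h.elim
  gam := fun h _ => h.elim

end Pool.Agent.K7.H81.SD
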