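import Pool.Agent.K7.H42.SD.OrdAlg
import Pool.Agent.K7.H81.SD.Greedy

/-!
# Project SD: the greedy algorithm finds a strict partial order that decides all nontrivial pairs
-/

set_option autoImplicit false

namespace Pool.Agent.K7.H81.SD

open Pool.Agent.NPC Pool.Agent.K7.H42.SD

/-- the adjacency as a relation -/
def Ad (L : List (List ℕ)) (i j : ℕ) : Prop := adjb L i j = true

theorem adjb_iff {L : List (List ℕ)} {i j : ℕ} : adjb L i j = true ↔
    (i < L.length ∧ j < L.length) ∧ i ≠ j ∧ (j ∈ L.getD i [] ∨ i ∈ L.getD j []) := by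
  simp [adjb]

theorem Ad.symm {L : List (List ℕ)} {i j : ℕ} (h : Ad L i j) : Ad L j i := by
  unfold Ad at *
  rw [adjb_iff] at h ⊢
  exact ⟨h.1.symm, h.2.1.symm, h.2.2.symm⟩

theorem Ad.lt {L : List (List ℕ)} {i j : ℕ} (h : Ad L i j) : i < L.length := (adjb_iff.1 h).1.1

theorem impb_iff {L : List (List ℕ)} {a b y x : ℕ} :
    impb L (a, b) (y, x) = true ↔ G (Ad L) a b y x := by
  simp [impb, G, Ad, and_assoc]

theorem mem_pairs {n : ℕ} {p : ℕ × ℕ} : p ∈ pairs n ↔ p.1 < n ∧ p.2 < n := by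
  obtain ⟨i, j⟩ := p
  simp [pairs]

/-- the relation given by a list -/
def Rl (D : List (ℕ × ℕ)) (a b : ℕ) : Prop := (a, b) ∈ D

theorem NT.lt {L : List (List ℕ)} {a b : ℕ} (h : NT (Ad L) a b) :
    a < L.length ∧ b < L.length := by
  obtain ⟨y, x, h1, h2, _, _⟩ := h
  exact ⟨h1.lt, h2.lt⟩

theorem ntb_iff {L : List (List ℕ)} {a b : ℕ} : ntb L (a, b) = true ↔ NT (Ad L) a b := by
  rw [ntb, List.any_eq_true]
  constructor
  · rintro ⟨⟨y, x⟩, _, h⟩
    exact ⟨y, x, impb_iff.1 h⟩
  · rintro ⟨y, x, h⟩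
    exact ⟨(y, x), mem_pairs.2 ⟨h.2.1.symm.lt, h.1.symm.lt⟩, impb_iff.2 h⟩

theorem clo_iff {L : List (List ℕ)} {D : List (ℕ × ℕ)} {u v a b : ℕ} :
    Clo L ((u, v) :: D) a b ↔ Clos (Ad L) (Rl D) u v a b := by
  constructor
  · intro h
    induction h with
    | @base a b h =>
      rcases List.mem_cons.1 h with h | h
      · obtain ⟨rfl, rfl⟩ := Prod.mk.inj h
        exact Clos.new
      · exact Clos.base h
    | imp _ g ih => exact ih.imp (impb_iff.1 g)
    | trans _ _ ih1 ih2 => exact ih1.trans ih2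
  · intro h
    induction h with
    | base h => exact Clo.base (List.mem_cons_of_mem _ h)
    | new => exact Clo.base List.mem_cons_self
    | imp _ g ih => exact ih.imp (impb_iff.2 g)
    | trans _ _ ih1 ih2 => exact ih1.trans ih2

theorem irr_iff {S : List (ℕ × ℕ)} : irr S = true ↔ ∀ a, (a, a) ∉ S := by
  rw [irr, List.all_eq_true]
  constructor
  · intro h a ha
    have := h _ ha
    simp at this
  · rintro h ⟨a, b⟩ he
    by_cases hab : a = b
    · subst hab
      exact absurd he (h a)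
    · simp [hab]

theorem close_iff (hC : StClose) {L : List (List ℕ)} {D : List (ℕ × ℕ)}
    (hD : ∀ e ∈ D, e.1 < L.length ∧ e.2 < L.length) {u v : ℕ} (hu : u < L.length)
    (hv : v < L.length) (a b : ℕ) :
    (a, b) ∈ close L ((u, v) :: D) ↔ Clos (Ad L) (Rl D) u v a b := by
  rw [hC L _ ?_ a b, clo_iff]
  intro e he
  rcases List.mem_cons.1 he with rfl | h
  · exact ⟨hu, hv⟩
  · exact hD e h

/-- the greedy step -/
theorem stepD_spec (hC : StClose) {L : List (List ℕ)} {D : List (ℕ × ℕ)} {σ : ℕ → ℕ}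
    (hσ : StrongNum (Ad L) σ) (hinj : ∀ a b, σ a = σ b → a = b) (hD : Cp (Ad L) (Rl D))
    {u v : ℕ} (_ : u < L.length) (_ : v < L.length) :
    Cp (Ad L) (Rl (stepD L D (u, v))) ∧ (∀ a b, Rl D a b → Rl (stepD L D (u, v)) a b) ∧
      (NT (Ad L) u v → Rl (stepD L D (u, v)) u v ∨ Rl (stepD L D (u, v)) v u) := by
  have hlt : ∀ e ∈ D, e.1 < L.length ∧ e.2 < L.length := fun e he => by
    obtain ⟨a, b⟩ := e
    exact NT.lt (hD.nt (a := a) (b := b) he)
  by_cases hn : NT (Ad L) u v
  · have h1 : ntb L (u, v) = true := ntb_iff.2 hn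
    have hlt' := hn.lt
    have e1 : ∀ a b, Rl (close L ((u, v) :: D)) a b ↔ Clos (Ad L) (Rl D) u v a b :=
      close_iff hC hlt hlt'.1 hlt'.2
    have e2 : ∀ a b, Rl (close L ((v, u) :: D)) a b ↔ Clos (Ad L) (Rl D) v u a b :=
      close_iff hC hlt hlt'.2 hlt'.1
    have f1 : Rl (close L ((u, v) :: D)) = Clos (Ad L) (Rl D) u v :=
      funext fun a => funext fun b => propext (e1 a b)
    have f2 : Rl (close L ((v, u) :: D)) = Clos (Ad L) (Rl D) v u :=
      funext fun a => funext fun b => propext (e2 a b)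
    rcases Bool.eq_false_or_eq_true (irr (close L ((u, v) :: D))) with h2 | h2
    · have hs : stepD L D (u, v) = close L ((u, v) :: D) := by
        simp only [stepD, h1, h2, if_true]
      rw [hs, f1]
      have h3 : ∀ a, ¬ Clos (Ad L) (Rl D) u v a a := fun a ha =>
        irr_iff.1 h2 a ((e1 a a).2 ha)
      exact ⟨Clos.cp (fun _ _ h => h.symm) hD hn h3, fun a b h => Clos.base h,
        fun _ => Or.inl Clos.new⟩
    · have h3 : ∃ a, Clos (Ad L) (Rl D) u v a a := by
        by_contra h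
        push Not at h
        have : irr (close L ((u, v) :: D)) = true := irr_iff.2 fun a ha => h a ((e1 a a).1 ha)
        rw [this] at h2
        exact Bool.noConfusion h2
      have h4 := (greedy_step (fun _ _ h => Ad.symm h) hσ hinj hD hn).2 h3
      have h5 : irr (close L ((v, u) :: D)) = true :=
        irr_iff.2 fun a ha => NT.irrefl (h4.nt ((e2 a a).1 ha))
      have hs : stepD L D (u, v) = close L ((v, u) :: D) := by
        simp only [stepD, h1, h2, h5, if_true, Bool.false_eq_true, if_false]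
      rw [hs, f2]
      exact ⟨h4, fun a b h => Clos.base h, fun _ => Or.inr Clos.new⟩
  · have hs : stepD L D (u, v) = D := by
      have : ntb L (u, v) = false := by
        by_contra h
        rw [Bool.not_eq_false] at h
        exact hn (ntb_iff.1 h)
      simp only [stepD, this, Bool.false_eq_true, if_false]
    rw [hs]
    exact ⟨hD, fun _ _ h => h, fun h => absurd h hn⟩

theorem foldr_spec (hC : StClose) {L : List (List ℕ)} {σ : ℕ → ℕ}
    (hσ : StrongNum (Ad L) σ) (hinj : ∀ a b, σ a = σ b → a = b) :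
    ∀ l : List (ℕ × ℕ), (∀ e ∈ l, e.1 < L.length ∧ e.2 < L.length) →
      Cp (Ad L) (Rl (l.foldr (fun e D => stepD L D e) [])) ∧
      ∀ e ∈ l, NT (Ad L) e.1 e.2 → Rl (l.foldr (fun e D => stepD L D e) []) e.1 e.2 ∨
        Rl (l.foldr (fun e D => stepD L D e) []) e.2 e.1 := by
  intro l
  induction l with
  | nil =>
    intro _
    have : Rl ([] : List (ℕ × ℕ)) = fun _ _ => False :=
      funext fun a => funext fun b => propext ⟨fun h => by simp [Rl] at h, fun h => h.elim⟩
    rw [List.foldr_nil, this]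
    exact ⟨Cp.bot, fun e he => by simp at he⟩
  | cons e l ih =>
    intro hl
    obtain ⟨h1, h2⟩ := ih fun e he => hl e (List.mem_cons_of_mem _ he)
    obtain ⟨u, v⟩ := e
    have hlt := hl _ List.mem_cons_self
    obtain ⟨h3, h4, h5⟩ := stepD_spec hC hσ hinj h1 hlt.1 hlt.2
    rw [List.foldr_cons]
    refine ⟨h3, fun e he hn => ?_⟩
    rcases List.mem_cons.1 he with rfl | he
    · exact h5 hn
    · rcases h2 e he hn with h | h
      · exact Or.inl (h4 _ _ h)
      · exact Or.inr (h4 _ _ h)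

/-- JOB GREEDY -/
theorem stGreedy : StGreedy := by
  intro hC L ⟨σ, hinj, himp⟩
  have hσ : StrongNum (Ad L) σ := by
    intro i j k l h1 h2 h3 h4
    by_contra hno
    push Not at hno
    have := himp i j l k (impb_iff.2 ⟨h3, h4, hno.1, hno.2⟩) h1
    omega
  obtain ⟨h1, h2⟩ := foldr_spec hC hσ hinj (pairs L.length) fun e he => mem_pairs.1 he
  refine ⟨?_, ?_, ?_, ?_, ?_⟩
  · rintro ⟨a, b⟩ he
    exact NT.lt (h1.nt (a := a) (b := b) he)
  · exact fun a ha => NT.irrefl (h1.nt (a := a) (b := a) ha)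
  · exact fun a b c e1 e2 => h1.trans e1 e2
  · exact fun a b y x e g => h1.gam e (impb_iff.1 g)
  · intro a b y x g
    have hn : NT (Ad L) a b := ⟨y, x, impb_iff.1 g⟩
    exact h2 (a, b) (mem_pairs.2 hn.lt) hn

end Pool.Agent.K7.H81.SD
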