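import Mathlib

/-!
# Strong orderings of symmetric matrices: the greedy closure works

`A` is a symmetric relation. A linear order is strong if there are no `u < v`, `y < x`... precisely:
`u < v`, `A u x`, `A v y`, `¬ A u y`, `¬ A v x` imply `y < x`. The implications are
`(u, v) → (y, x)` (`G A u v y x`). We prove: if no class of the implications contains a pair and its
reverse, then every strict partial order `D` of nontrivial pairs that is closed under the implications
can be extended by every undecided nontrivial pair or by its reverse (with closure under the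
implications and transitivity). The method is the one of Gallai and Golumbic.
-/

set_option autoImplicit false

namespace Pool.Agent.K7.H81.SD

variable {V : Type*}

/-- the implication `(a, b) → (y, x)` -/
def G (A : V → V → Prop) (a b y x : V) : Prop := A a x ∧ A b y ∧ ¬ A a y ∧ ¬ A b x

/-- the nontrivial pairs -/
def NT (A : V → V → Prop) (a b : V) : Prop := ∃ y x, G A a b y x

/-- the row class of `(a, b)`: an even number of implications -/
inductive Cl (A : V → V → Prop) (a b : V) : V → V → Prop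
  | refl : Cl A a b a b
  | step {c d c' d' y x : V} : Cl A a b c d → G A c d y x → G A c' d' y x → Cl A a b c' d'

variable {A : V → V → Prop}

theorem G.swap {a b y x : V} (h : G A a b y x) : G A b a x y := ⟨h.2.1, h.1, h.2.2.2, h.2.2.1⟩

theorem G.symm (hA : ∀ a b, A a b → A b a) {a b y x : V} (h : G A a b y x) : G A y x a b :=
  ⟨hA _ _ h.2.1, hA _ _ h.1, fun h' => h.2.2.1 (hA _ _ h'), fun h' => h.2.2.2 (hA _ _ h')⟩

theorem NT.irrefl {a : V} : ¬ NT A a a := fun ⟨_, _, h⟩ => h.2.2.2 h.1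

theorem NT.swap {a b : V} (h : NT A a b) : NT A b a := by
  obtain ⟨y, x, h⟩ := h
  exact ⟨x, y, h.swap⟩

theorem Cl.trans {a b c d e f : V} (h1 : Cl A a b c d) (h2 : Cl A c d e f) : Cl A a b e f := by
  induction h2 with
  | refl => exact h1
  | step _ g1 g2 ih => exact ih.step g1 g2

theorem Cl.symm {a b c d : V} (h : Cl A a b c d) : Cl A c d a b := by
  induction h with
  | refl => exact Cl.refl
  | step _ g1 g2 ih => exact (Cl.refl.step g2 g1).trans ih

theorem Cl.swap {a b c d : V} (h : Cl A a b c d) : Cl A b a d c := by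
  induction h with
  | refl => exact Cl.refl
  | step _ g1 g2 ih => exact ih.step g1.swap g2.swap

theorem Cl.nt {a b c d : V} (h : Cl A a b c d) (hn : NT A a b) : NT A c d := by
  induction h with
  | refl => exact hn
  | step _ _ g2 _ => exact ⟨_, _, g2⟩

theorem Cl.one {a b c d y x : V} (h1 : G A a b y x) (h2 : G A c d y x) : Cl A a b c d :=
  Cl.refl.step h1 h2

/-- a path of two nontrivial pairs with a trivial chord -/
theorem twoPath {a b c : V} (h1 : NT A a b) (h2 : NT A b c) (h3 : ¬ NT A a c) : Cl A a b c b := by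
  obtain ⟨z1, x1, p1, p2, p3, p4⟩ := h1
  obtain ⟨x2, z2, q1, q2, q3, q4⟩ := h2
  -- `A a x1, A b z1, ¬ A a z1, ¬ A b x1`, `A b z2, A c x2, ¬ A b x2, ¬ A c z2`
  by_cases hac : ∀ x, A a x → A c x
  · exact Cl.one (y := z2) (x := x1) ⟨p1, q1, fun h => q4 (hac _ h), p4⟩ ⟨hac _ p1, q1, q4, p4⟩
  · by_cases hca : ∀ x, A c x → A a x
    · exact Cl.one (y := z1) (x := x2) ⟨hca _ q2, p2, p3, q3⟩ ⟨q2, p2, fun h => p3 (hca _ h), q3⟩
    · push Not at hac hca
      obtain ⟨x, hx1, hx2⟩ := hac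
      obtain ⟨y, hy1, hy2⟩ := hca
      exact absurd ⟨y, x, hx1, hy1, hy2, hx2⟩ h3

/-- the triangle lemma, one step -/
theorem tri {a b c y x : V} (h : G A a c y x) (hab : NT A a b) (h1 : ¬ Cl A a b a c)
    (h2 : ¬ Cl A b c a c) :
    (∃ s, G A a b y s ∧ G A b c s x) ∨ ∃ t, G A a b t x ∧ G A b c y t := by
  obtain ⟨t, s, p1, p2, p3, p4⟩ := hab
  obtain ⟨g1, g2, g3, g4⟩ := h
  by_cases hbx : A b x
  · by_cases hby : A b y
    · left
      refine ⟨s, ⟨p1, hby, g3, p4⟩, hbx, ?_, p4, g4⟩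
      by_contra hcs
      exact h1 (Cl.one (y := y) (x := s) ⟨p1, hby, g3, p4⟩ ⟨p1, g2, g3, hcs⟩)
    · exact absurd (Cl.one (y := y) (x := x) ⟨hbx, g2, hby, g4⟩ ⟨g1, g2, g3, g4⟩) h2
  · by_cases hby : A b y
    · exact absurd (Cl.one (y := y) (x := x) ⟨g1, hby, g3, hbx⟩ ⟨g1, g2, g3, g4⟩) h1
    · right
      refine ⟨t, ⟨g1, p2, p3, hbx⟩, p2, g2, hby, ?_⟩
      intro hct
      exact h1 (Cl.one (y := t) (x := x) ⟨g1, p2, p3, hbx⟩ ⟨g1, hct, p3, g4⟩)

/-- one step of the even version -/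
theorem triStep {a b c a' c' y x : V} (h : G A a c y x) (h' : G A a' c' y x) (hab : NT A a b)
    (h1 : ¬ Cl A a b a c) (h2 : ¬ Cl A b c a c) : Cl A a b a' b ∧ Cl A b c b c' := by
  rcases tri h hab h1 h2 with ⟨s, k1, k2⟩ | ⟨t, k1, k2⟩
  · -- both
    have ha : A a' s := by
      by_contra hs
      exact h2 ((Cl.one (y := s) (x := x) k2 ⟨h'.1, k2.2.1, hs, h.2.2.2⟩).step
        (y := y) (x := x) ⟨h'.1, h.2.1, h'.2.2.1, h.2.2.2⟩ h)
    have hc : A c' s := by
      by_contra hs
      exact h1 ((Cl.one (y := y) (x := s) k1 ⟨k1.1, h'.2.1, h.2.2.1, hs⟩).step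
        (y := y) (x := x) ⟨h.1, h'.2.1, h.2.2.1, h'.2.2.2⟩ h)
    exact ⟨Cl.one (y := y) (x := s) k1 ⟨ha, k1.2.1, h'.2.2.1, k1.2.2.2⟩,
      Cl.one (y := s) (x := x) k2 ⟨k2.1, hc, k2.2.2.1, h'.2.2.2⟩⟩
  · -- none
    have ha : ¬ A a' t := by
      intro hs
      exact h2 ((Cl.one (y := y) (x := t) k2 ⟨hs, h.2.1, h'.2.2.1, k2.2.2.2⟩).step
        (y := y) (x := x) ⟨h'.1, h.2.1, h'.2.2.1, h.2.2.2⟩ h)
    have hc : ¬ A c' t := by
      intro hs
      exact h1 ((Cl.one (y := t) (x := x) k1 ⟨h.1, hs, k1.2.2.1, h'.2.2.2⟩).step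
        (y := y) (x := x) ⟨h.1, h'.2.1, h.2.2.1, h'.2.2.2⟩ h)
    exact ⟨Cl.one (y := t) (x := x) k1 ⟨h'.1, k1.2.1, ha, k1.2.2.2⟩,
      Cl.one (y := y) (x := t) k2 ⟨k2.1, h'.2.1, k2.2.2.1, hc⟩⟩

/-- **the triangle lemma**: the apex `b` is fixed -/
theorem triangle {a b c : V} (hab : NT A a b) (h1 : ¬ Cl A a b a c) (h2 : ¬ Cl A b c a c)
    {a' c' : V} (h : Cl A a c a' c') : Cl A a b a' b ∧ Cl A b c b c' := by
  induction h with
  | refl => exact ⟨Cl.refl, Cl.refl⟩
  | @step p q p' q' y x hpq g1 g2 ih =>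
    have k := triStep (b := b) g1 g2 (ih.1.nt hab)
      (fun h => h1 ((ih.1.trans h).trans hpq.symm)) (fun h => h2 ((ih.2.trans h).trans hpq.symm))
    exact ⟨ih.1.trans k.1, ih.2.trans k.2⟩

/-- a union of classes of nontrivial pairs -/
structure Good (A X : V → V → Prop) : Prop where
  nt : ∀ {a b}, X a b → NT A a b
  cl : ∀ {a b c d}, X a b → Cl A a b c d → X c d

theorem Good.class {u v : V} (h : NT A u v) : Good A (Cl A u v) :=
  ⟨fun h' => h'.nt h, fun h1 h2 => h1.trans h2⟩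

/-- composition -/
theorem Good.comp {X Y : V → V → Prop} (hX : Good A X) (hY : Good A Y)
    (hXY : ∀ a b, X a b → ¬ Y b a) {a b c : V} (h1 : X a b) (h2 : Y b c) :
    NT A a c ∧ ∀ a' c', Cl A a c a' c' → X a' c' ∨ Y a' c' ∨ (X a' b ∧ Y b c') := by
  constructor
  · by_contra h
    exact hXY _ _ (hX.cl h1 (twoPath (hX.nt h1) (hY.nt h2) h)) h2
  · intro a' c' h
    by_cases k1 : Cl A a b a c
    · exact Or.inl (hX.cl h1 (k1.trans h))
    by_cases k2 : Cl A b c a c
    · exact Or.inr (Or.inl (hY.cl h2 (k2.trans h)))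
    obtain ⟨e1, e2⟩ := triangle (hX.nt h1) k1 k2 h
    exact Or.inr (Or.inr ⟨hX.cl h1 e1, hY.cl h2 e2⟩)

/-- composition and the partner classes -/
theorem Good.comp_odd {X Y X' Y' : V → V → Prop} (hX : Good A X) (hY : Good A Y)
    (hXY : ∀ a b, X a b → ¬ Y b a)
    (gX : ∀ a b y x, X a b → G A a b y x → X' y x)
    (gY : ∀ a b y x, Y a b → G A a b y x → Y' y x) {a b c y x : V} (h1 : X a b) (h2 : Y b c)
    (g : G A a c y x) :
    X' y x ∨ Y' y x ∨ (∃ s, X' y s ∧ Y' s x) ∨ ∃ t, Y' y t ∧ X' t x := by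
  by_cases k1 : Cl A a b a c
  · exact Or.inl (gX _ _ _ _ (hX.cl h1 k1) g)
  by_cases k2 : Cl A b c a c
  · exact Or.inr (Or.inl (gY _ _ _ _ (hY.cl h2 k2) g))
  rcases tri g (hX.nt h1) k1 k2 with ⟨s, e1, e2⟩ | ⟨t, e1, e2⟩
  · exact Or.inr (Or.inr (Or.inl ⟨s, gX _ _ _ _ h1 e1, gY _ _ _ _ h2 e2⟩))
  · exact Or.inr (Or.inr (Or.inr ⟨t, gY _ _ _ _ h2 e2, gX _ _ _ _ h1 e1⟩))

/-- reflexive closure -/
def Dr (D : V → V → Prop) (a b : V) : Prop := a = b ∨ D a b

/-- the transitive closure of `D` and the class of `(u, v)` -/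
def W (A D : V → V → Prop) (u v a b : V) : Prop :=
  D a b ∨ ∃ p q, Dr D a p ∧ Cl A u v p q ∧ Dr D q b

/-- a strict partial order that is a union of classes of nontrivial pairs -/
structure Po (A D : V → V → Prop) : Prop extends Good A D where
  trans : ∀ {a b c}, D a b → D b c → D a c

theorem Po.irrefl {D : V → V → Prop} (h : Po A D) {a : V} : ¬ D a a := fun h' => NT.irrefl (h.nt h')

theorem Po.drt {D : V → V → Prop} (h : Po A D) {a b c : V} (h1 : Dr D a b) (h2 : Dr D b c) :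
    Dr D a c := by
  rcases h1 with rfl | h1
  · exact h2
  · rcases h2 with rfl | h2
    · exact Or.inr h1
    · exact Or.inr (h.trans h1 h2)

theorem Po.rdt {D : V → V → Prop} (h : Po A D) {a b c : V} (h1 : Dr D a b) (h2 : D b c) :
    D a c := by
  rcases h1 with rfl | h1
  · exact h2
  · exact h.trans h1 h2

theorem Po.dtr {D : V → V → Prop} (h : Po A D) {a b c : V} (h1 : D a b) (h2 : Dr D b c) :
    D a c := by
  rcases h2 with rfl | h2
  · exact h1
  · exact h.trans h1 h2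

/-- a class that is not equal to its reverse is transitive -/
theorem Cl.tr {u v : V} (hn : NT A u v) (hinv : ¬ Cl A u v v u) {a b c : V} (h1 : Cl A u v a b)
    (h2 : Cl A u v b c) : Cl A u v a c := by
  have hab := h1.nt hn
  have hbc := h2.nt hn
  have hrev : ∀ p q, Cl A u v p q → ¬ Cl A u v q p := fun p q e1 e2 =>
    hinv (e2.trans e1.swap.symm)
  by_contra hac
  have hnt : NT A a c := by
    by_contra h
    have e := h1.trans (twoPath hab hbc h)
    exact hrev _ _ h2 e
  -- the pair (b, c) with the apex a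
  have k := triangle (a := b) (b := a) (c := c) hab.swap
    (fun h => hrev _ _ h1 (h2.trans h.symm))
    (fun h => hac (h2.trans h.symm)) (h2.symm.trans h1)
  exact NT.irrefl ((k.1.swap).nt hab)

section ext

variable {D : V → V → Prop} {u v : V}

theorem cdc (hD : Po A D) (hn : NT A u v) (hvu : ¬ D v u) {p q r s : V} (h1 : Cl A u v p q)
    (h2 : D q r) (h3 : Cl A u v r s) : D p r ∨ Cl A u v p r := by
  have hno : ∀ a b, Cl A u v a b → ¬ D b a := fun a b e1 e2 => hvu (hD.cl e2 e1.swap.symm)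
  have hpq := h1.nt hn
  have hqr := hD.nt h2
  have hnt : NT A p r := by
    by_contra h
    exact hno _ _ (h1.trans (twoPath hpq hqr h)) h2
  by_cases k1 : Cl A p q p r
  · exact Or.inr (h1.trans k1)
  by_cases k2 : Cl A q r p r
  · exact Or.inl (hD.cl h2 k2)
  -- the pair (p, q) with the apex r
  have k := triangle (a := p) (b := r) (c := q) hnt (fun h => k1 h.symm)
    (fun h => hno _ _ (h1.trans h.symm) h2) (h1.symm.trans h3)
  exact absurd (k.1.nt hnt) NT.irrefl

/-- the extension is again a strict partial order and a union of classes -/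
theorem W.po (hD : Po A D) (hn : NT A u v) (hinv : ¬ Cl A u v v u) (hvu : ¬ D v u) :
    Po A (W A D u v) := by
  have hno : ∀ a b, Cl A u v a b → ¬ D b a := fun a b e1 e2 => hvu (hD.cl e2 e1.swap.symm)
  have hC : Good A (Cl A u v) := Good.class hn
  have hDC : ∀ a b, D a b → ¬ Cl A u v b a := fun a b e1 e2 => hno _ _ e2 e1
  -- the first composition
  let P : V → V → Prop := fun a b => D a b ∨ Cl A u v a b ∨ ∃ p, D a p ∧ Cl A u v p b
  have hP : Good A P := by
    constructor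
    · rintro a b (h | h | ⟨p, h1, h2⟩)
      · exact hD.nt h
      · exact hC.nt h
      · exact (hD.toGood.comp hC hDC h1 h2).1
    · rintro a b c d (h | h | ⟨p, h1, h2⟩) hcl
      · exact Or.inl (hD.cl h hcl)
      · exact Or.inr (Or.inl (hC.cl h hcl))
      · rcases (hD.toGood.comp hC hDC h1 h2).2 _ _ hcl with e | e | ⟨e1, e2⟩
        · exact Or.inl e
        · exact Or.inr (Or.inl e)
        · exact Or.inr (Or.inr ⟨p, e1, e2⟩)
  have hPD : ∀ a b, P a b → ¬ D b a := by
    rintro a b (h | h | ⟨p, h1, h2⟩) h'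
    · exact hD.irrefl (hD.trans h h')
    · exact hno _ _ h h'
    · exact hno _ _ h2 (hD.trans h' h1)
  have hWP : ∀ a b, W A D u v a b ↔ P a b ∨ ∃ q, P a q ∧ D q b := by
    intro a b
    constructor
    · rintro (h | ⟨p, q, h1, h2, h3⟩)
      · exact Or.inl (Or.inl h)
      · have hPq : P a q := by
          rcases h1 with rfl | h1
          · exact Or.inr (Or.inl h2)
          · exact Or.inr (Or.inr ⟨p, h1, h2⟩)
        rcases h3 with rfl | h3
        · exact Or.inl hPq
        · exact Or.inr ⟨q, hPq, h3⟩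
    · have hPW : ∀ a b, P a b → W A D u v a b := by
        rintro a b (h | h | ⟨p, h1, h2⟩)
        · exact Or.inl h
        · exact Or.inr ⟨a, b, Or.inl rfl, h, Or.inl rfl⟩
        · exact Or.inr ⟨p, b, Or.inr h1, h2, Or.inl rfl⟩
      rintro (h | ⟨q, h1, h2⟩)
      · exact hPW _ _ h
      · rcases hPW _ _ h1 with h | ⟨p, r, e1, e2, e3⟩
        · exact Or.inl (hD.trans h h2)
        · exact Or.inr ⟨p, r, e1, e2, Or.inr (hD.rdt e3 h2)⟩
  refine ⟨⟨?_, ?_⟩, ?_⟩
  · intro a b h
    rcases (hWP a b).1 h with h | ⟨q, h1, h2⟩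
    · exact hP.nt h
    · exact (hP.comp hD.toGood hPD h1 h2).1
  · intro a b c d h hcl
    rw [hWP]
    rcases (hWP a b).1 h with h | ⟨q, h1, h2⟩
    · exact Or.inl (hP.cl h hcl)
    · rcases (hP.comp hD.toGood hPD h1 h2).2 _ _ hcl with e | e | ⟨e1, e2⟩
      · exact Or.inl e
      · exact Or.inl (Or.inl e)
      · exact Or.inr ⟨q, e1, e2⟩
  · rintro a b c (h | ⟨p, q, h1, h2, h3⟩) (h' | ⟨p', q', h1', h2', h3'⟩)
    · exact Or.inl (hD.trans h h')
    · exact Or.inr ⟨p', q', Or.inr (hD.dtr h h1'), h2', h3'⟩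
    · exact Or.inr ⟨p, q, h1, h2, Or.inr (hD.rdt h3 h')⟩
    · rcases hD.drt h3 h1' with rfl | hqp
      · exact Or.inr ⟨p, q', h1, Cl.tr hn hinv h2 h2', h3'⟩
      · rcases cdc hD hn hvu h2 hqp h2' with e | e
        · exact Or.inr ⟨p', q', Or.inr (hD.rdt h1 e), h2', h3'⟩
        · exact Or.inr ⟨p, q', h1, Cl.tr hn hinv e h2', h3'⟩

/-- the partners of the class of `(u, v)` -/
theorem Cl.partner (hA : ∀ a b, A a b → A b a) {y0 x0 : V} (g : G A u v y0 x0) {a b y x : V}
    (h : Cl A u v a b) (h' : G A a b y x) : Cl A y0 x0 y x := by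
  induction h generalizing y x with
  | refl => exact Cl.one (g.symm hA) (h'.symm hA)
  | step _ g1 g2 ih => exact (ih g1).step (g2.symm hA) (h'.symm hA)

/-- the implications map the extension to the extension by the partner -/
theorem W.odd (hA : ∀ a b, A a b → A b a) {D' : V → V → Prop} {y0 x0 : V} (g : G A u v y0 x0)
    (hD : Po A D) (hvu : ¬ D v u) (hDD : ∀ a b y x, D a b → G A a b y x → D' y x)
    (hW' : Po A (W A D' y0 x0)) {a b y x : V} (h : W A D u v a b) (h' : G A a b y x) :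
    W A D' y0 x0 y x := by
  have hn : NT A u v := ⟨_, _, g⟩
  have hno : ∀ a b, Cl A u v a b → ¬ D b a := fun a b e1 e2 => hvu (hD.cl e2 e1.swap.symm)
  have hC : Good A (Cl A u v) := Good.class hn
  have hDC : ∀ a b, D a b → ¬ Cl A u v b a := fun a b e1 e2 => hno _ _ e2 e1
  have cW : ∀ y x, Cl A y0 x0 y x → W A D' y0 x0 y x := fun y x h =>
    Or.inr ⟨y, x, Or.inl rfl, h, Or.inl rfl⟩
  let P : V → V → Prop := fun a b => D a b ∨ Cl A u v a b ∨ ∃ p, D a p ∧ Cl A u v p b
  have hP : Good A P := by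
    constructor
    · rintro a b (h | h | ⟨p, h1, h2⟩)
      · exact hD.nt h
      · exact hC.nt h
      · exact (hD.toGood.comp hC hDC h1 h2).1
    · rintro a b c d (h | h | ⟨p, h1, h2⟩) hcl
      · exact Or.inl (hD.cl h hcl)
      · exact Or.inr (Or.inl (hC.cl h hcl))
      · rcases (hD.toGood.comp hC hDC h1 h2).2 _ _ hcl with e | e | ⟨e1, e2⟩
        · exact Or.inl e
        · exact Or.inr (Or.inl e)
        · exact Or.inr (Or.inr ⟨p, e1, e2⟩)
  have hPD : ∀ a b, P a b → ¬ D b a := by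
    rintro a b (h | h | ⟨p, h1, h2⟩) h'
    · exact hD.irrefl (hD.trans h h')
    · exact hno _ _ h h'
    · exact hno _ _ h2 (hD.trans h' h1)
  have gP : ∀ a b y x, P a b → G A a b y x → W A D' y0 x0 y x := by
    rintro a b y x (h | h | ⟨p, h1, h2⟩) h'
    · exact Or.inl (hDD _ _ _ _ h h')
    · exact cW _ _ (Cl.partner hA g h h')
    · rcases hD.toGood.comp_odd hC hDC hDD (fun _ _ _ _ e1 e2 => Cl.partner hA g e1 e2) h1 h2 h'
        with e | e | ⟨s, e1, e2⟩ | ⟨t, e1, e2⟩
      · exact Or.inl e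
      · exact cW _ _ e
      · exact Or.inr ⟨s, x, Or.inr e1, e2, Or.inl rfl⟩
      · exact Or.inr ⟨y, t, Or.inl rfl, e1, Or.inr e2⟩
  rcases h with h | ⟨p, q, h1, h2, h3⟩
  · exact Or.inl (hDD _ _ _ _ h h')
  · have hPq : P a q := by
      rcases h1 with rfl | h1
      · exact Or.inr (Or.inl h2)
      · exact Or.inr (Or.inr ⟨p, h1, h2⟩)
    rcases h3 with rfl | h3
    · exact gP _ _ _ _ hPq h'
    · rcases hP.comp_odd hD.toGood hPD gP hDD hPq h3 h' with e | e | ⟨s, e1, e2⟩ | ⟨t, e1, e2⟩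
      · exact e
      · exact Or.inl e
      · exact hW'.trans e1 (Or.inl e2)
      · exact hW'.trans (Or.inl e1) e2

end ext

/-- a one-sorted closed strict partial order -/
structure Cp (A D : V → V → Prop) : Prop where
  nt : ∀ {a b}, D a b → NT A a b
  trans : ∀ {a b c}, D a b → D b c → D a c
  gam : ∀ {a b y x}, D a b → G A a b y x → D y x

theorem Cp.po (hA : ∀ a b, A a b → A b a) {D : V → V → Prop} (h : Cp A D) : Po A D where
  nt := h.nt
  trans := h.trans
  cl := by
    intro a b c d h1 h2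
    induction h2 with
    | refl => exact h1
    | step _ g1 g2 ih => exact h.gam (h.gam ih g1) (g2.symm hA)

/-- the case in which adding `(u, v)` does not force the reverse of its partner -/
theorem ext_one (hA : ∀ a b, A a b → A b a) {D : V → V → Prop} (hD : Cp A D) {u v y0 x0 : V}
    (g : G A u v y0 x0) (hvu : ¬ D v u) (hinv : ¬ Cl A u v v u) (hinv' : ¬ Cl A y0 x0 x0 y0)
    (hW : ¬ W A D u v x0 y0) :
    ∃ T : V → V → Prop, Cp A T ∧ (∀ a b, D a b → T a b) ∧ T u v := by
  have hDp := hD.po hA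
  have g' := g.symm hA
  have hn : NT A u v := ⟨_, _, g⟩
  have hn' : NT A y0 x0 := ⟨_, _, g'⟩
  have hxy : ¬ D x0 y0 := fun h => hvu (hD.gam h g'.swap)
  have hR : Po A (W A D u v) := W.po hDp hn hinv hvu
  have hK : Po A (W A D y0 x0) := W.po hDp hn' hinv' hxy
  have hDD : ∀ a b y x, D a b → G A a b y x → D y x := fun _ _ _ _ => hD.gam
  have oRK : ∀ a b y x, W A D u v a b → G A a b y x → W A D y0 x0 y x := fun a b y x =>
    W.odd hA g hDp hvu hDD hK
  have oKR : ∀ a b y x, W A D y0 x0 a b → G A a b y x → W A D u v y x := fun a b y x =>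
    W.odd hA g' hDp hxy hDD hR
  have cR : ∀ a b, Cl A u v a b → W A D u v a b := fun a b h =>
    Or.inr ⟨a, b, Or.inl rfl, h, Or.inl rfl⟩
  have cK : ∀ a b, Cl A y0 x0 a b → W A D y0 x0 a b := fun a b h =>
    Or.inr ⟨a, b, Or.inl rfl, h, Or.inl rfl⟩
  -- minimality of `W`
  have minW : ∀ {E T : V → V → Prop} {p q : V}, Po A T → (∀ a b, E a b → T a b) →
      (∀ a b, Cl A p q a b → T a b) → ∀ a b, W A E p q a b → T a b := by
    intro E T p q hT h1 h2 a b h
    rcases h with h | ⟨r, s, e1, e2, e3⟩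
    · exact h1 _ _ h
    · have k2 := h2 _ _ e2
      have k3 : T r b := by
        rcases e3 with rfl | e3
        · exact k2
        · exact hT.trans k2 (h1 _ _ e3)
      rcases e1 with rfl | e1
      · exact k3
      · exact hT.trans (h1 _ _ e1) k3
  by_cases hc : W A D u v y0 x0
  · refine ⟨W A D u v, ⟨hR.nt, hR.trans, ?_⟩, fun a b h => Or.inl h, cR _ _ Cl.refl⟩
    intro a b y x h h'
    exact minW hR (fun a b h => Or.inl h) (fun a b h => hR.cl hc h) _ _ (oRK _ _ _ _ h h')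
  · -- add the partner
    have hcK : ¬ W A D y0 x0 u v := fun h => hc (oKR _ _ _ _ h g)
    have hcK' : ¬ W A D y0 x0 v u := fun h => hW (oKR _ _ _ _ h g.swap)
    have hTR : Po A (W A (W A D u v) y0 x0) := W.po hR hn' hinv' hW
    have hTK : Po A (W A (W A D y0 x0) u v) := W.po hK hn hinv hcK'
    have hle : ∀ a b, W A (W A D y0 x0) u v a b → W A (W A D u v) y0 x0 a b := by
      refine minW hTR ?_ ?_
      · refine minW hTR ?_ ?_
        · exact fun a b h => Or.inl (Or.inl h)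
        · exact fun a b h => Or.inr ⟨a, b, Or.inl rfl, h, Or.inl rfl⟩
      · exact fun a b h => Or.inl (cR _ _ h)
    refine ⟨W A (W A D u v) y0 x0, ⟨hTR.nt, hTR.trans, ?_⟩, fun a b h => Or.inl (Or.inl h),
      Or.inl (cR _ _ Cl.refl)⟩
    intro a b y x h h'
    exact hle _ _ (W.odd hA g' hR hW oRK hTK h h')

/-- not both directions are in conflict -/
theorem not_both (hA : ∀ a b, A a b → A b a) {D : V → V → Prop} (hD : Cp A D) {u v y0 x0 : V}
    (g : G A u v y0 x0) (huv : ¬ D u v) (hvu : ¬ D v u) (hinv : ¬ Cl A u v x0 y0)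
    (h1 : W A D u v x0 y0) (h2 : W A D v u y0 x0) : False := by
  have hDp := hD.po hA
  have g' := g.symm hA
  have hn : NT A u v := ⟨_, _, g⟩
  have hn' : NT A y0 x0 := ⟨_, _, g'⟩
  have hxy : ¬ D x0 y0 := fun h => hvu (hD.gam h g'.swap)
  have hyx : ¬ D y0 x0 := fun h => huv (hD.gam h g')
  have hno : ∀ a b, Cl A u v a b → ¬ D b a := fun a b e1 e2 => hvu (hDp.cl e2 e1.swap.symm)
  obtain ⟨p, q, k1, k2, k3⟩ := h1.resolve_left hxy
  obtain ⟨r, s, m1, m2, m3⟩ := h2.resolve_left hyx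
  have m2' : Cl A u v s r := m2.swap
  have hpq := k2.nt hn
  -- step 1
  have e1 : Cl A u v x0 q := by
    rcases k1 with rfl | k1
    · exact k2
    have hyp := hDp.nt k1
    have hnt : NT A x0 q := by
      by_contra h
      exact hno _ _ k2 (hDp.cl k1 (twoPath hyp hpq h))
    by_cases c1 : Cl A p q x0 q
    · exact k2.trans c1
    by_cases c2 : Cl A x0 p x0 q
    · exact absurd (hDp.dtr (hDp.cl k1 c2) k3) hxy
    exfalso
    have k := triangle (a := p) (b := x0) (c := q) hyp.swap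
      (fun h => hno _ _ k2 (hDp.cl k1 h.swap)) (fun h => c1 h.symm) (k2.symm.trans m2')
    have : D x0 s := hDp.cl k1 k.1.swap
    exact hDp.irrefl (hDp.rdt m3 this)
  -- step 2
  rcases k3 with rfl | k3
  · exact hinv e1
  have hxq := e1.nt hn
  by_cases c1 : Cl A x0 q x0 y0
  · exact hinv (e1.trans c1)
  by_cases c2 : Cl A q y0 x0 y0
  · exact hxy (hDp.cl k3 c2)
  have k := triangle (a := x0) (b := y0) (c := q) hn'.swap (fun h => c1 h.symm)
    (fun h => hno _ _ e1 (hDp.cl k3 h.swap)) (e1.symm.trans m2')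
  have : D r y0 := hDp.cl k3 k.2.swap
  exact hDp.irrefl (hDp.dtr this m1)

/-- **The ordering lemma.** `A` is symmetric and no class of the implications contains a pair and its
reverse. A closed strict partial order of nontrivial pairs can be extended by one of the two
directions of every nontrivial pair. -/
theorem ext (hA : ∀ a b, A a b → A b a)
    (hinv : ∀ u v, NT A u v → ¬ Cl A u v v u ∧ ∀ y x, G A u v y x → ¬ Cl A u v x y)
    {D : V → V → Prop} (hD : Cp A D) {u v : V} (hn : NT A u v) :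
    ∃ T : V → V → Prop, Cp A T ∧ (∀ a b, D a b → T a b) ∧ (T u v ∨ T v u) := by
  by_cases huv : D u v
  · exact ⟨D, hD, fun _ _ h => h, Or.inl huv⟩
  by_cases hvu : D v u
  · exact ⟨D, hD, fun _ _ h => h, Or.inr hvu⟩
  obtain ⟨y0, x0, g⟩ := hn
  have g' := g.symm hA
  have hn : NT A u v := ⟨_, _, g⟩
  have hn' : NT A y0 x0 := ⟨_, _, g'⟩
  by_cases hW : W A D u v x0 y0
  · have hW' : ¬ W A D v u y0 x0 := fun h =>
      not_both hA hD g huv hvu ((hinv u v hn).2 _ _ g) hW h
    obtain ⟨T, h1, h2, h3⟩ := ext_one hA hD g.swap huv (hinv v u hn.swap).1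
      (hinv x0 y0 hn'.swap).1 hW'
    exact ⟨T, h1, h2, Or.inr h3⟩
  · obtain ⟨T, h1, h2, h3⟩ := ext_one hA hD g hvu (hinv u v hn).1 (hinv y0 x0 hn').1 hW
    exact ⟨T, h1, h2, Or.inl h3⟩

end Pool.Agent.K7.H81.SD
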